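import Pool.Agent.H56.KAL.Stmts2

/-!
# A polynomial without terms of low degree is small near the origin
-/

set_option autoImplicit false

namespace Pool.KAL

namespace TAY

open Polynomial

/-- The coefficients of a polynomial of bounded degree are bounded by its maximum. -/
theorem coef_bound (K : ℕ) : ∃ C : ℝ, 0 ≤ C ∧ ∀ (q : Polynomial ℝ) (M : ℝ), q.natDegree ≤ K →
    (∀ t : ℝ, 0 ≤ t → t ≤ 1 → |q.eval t| ≤ M) → ∀ m, m ≤ K → |q.coeff m| ≤ C * M := by
  classical
  set v : ℕ → ℝ := fun i => (i : ℝ) / (K + 1) with hv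
  set s : Finset ℕ := Finset.range (K + 1) with hs
  have hK : (0 : ℝ) < K + 1 := by positivity
  have hinj : Set.InjOn v s := by
    intro a _ b _ hab
    have h : (a : ℝ) / (K + 1) = b / (K + 1) := hab
    have h2 : (a : ℝ) = b := by
      field_simp at h
      exact h
    exact_mod_cast h2
  refine ⟨∑ m ∈ Finset.range (K + 1), ∑ i ∈ s, |(Lagrange.basis s v i).coeff m|,
    Finset.sum_nonneg fun m _ => Finset.sum_nonneg fun i _ => abs_nonneg _, ?_⟩
  intro q M hq hM m hm
  have hM0 : 0 ≤ M := le_trans (abs_nonneg _) (hM 0 le_rfl zero_le_one)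
  have hdeg : q.degree < s.card := by
    rw [hs, Finset.card_range]
    exact lt_of_le_of_lt Polynomial.degree_le_natDegree (by exact_mod_cast Nat.lt_succ_of_le hq)
  have h1 : q = Lagrange.interpolate s v (fun i => q.eval (v i)) :=
    Lagrange.eq_interpolate hinj hdeg
  have h2 : q.coeff m = ∑ i ∈ s, q.eval (v i) * (Lagrange.basis s v i).coeff m := by
    conv_lhs => rw [h1]
    rw [Lagrange.interpolate_apply, Polynomial.finsetSum_coeff]
    refine Finset.sum_congr rfl fun i _ => ?_
    rw [Polynomial.coeff_C_mul]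
  have h3 : |q.coeff m| ≤ (∑ i ∈ s, |(Lagrange.basis s v i).coeff m|) * M := by
    rw [h2, Finset.sum_mul]
    refine le_trans (Finset.abs_sum_le_sum_abs _ _) (Finset.sum_le_sum fun i hi => ?_)
    rw [abs_mul, mul_comm]
    refine mul_le_mul_of_nonneg_left ?_ (abs_nonneg _)
    have hi' : i < K + 1 := by simpa [hs] using hi
    refine hM _ ?_ ?_
    · show 0 ≤ (i : ℝ) / (K + 1)
      positivity
    · show (i : ℝ) / (K + 1) ≤ 1
      rw [div_le_one hK]
      exact_mod_cast le_of_lt hi'
  refine le_trans h3 (mul_le_mul_of_nonneg_right ?_ hM0)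
  exact Finset.single_le_sum (f := fun m => ∑ i ∈ s, |(Lagrange.basis s v i).coeff m|)
    (fun m _ => Finset.sum_nonneg fun i _ => abs_nonneg _)
    (Finset.mem_range.2 (Nat.lt_succ_of_le hm))

/-- The restriction of a polynomial to a line through the origin. -/
noncomputable def line {n : ℕ} (R : MvPolynomial (Fin n) ℝ) (u : Fin n → ℝ) : Polynomial ℝ :=
  ∑ α ∈ R.support, Polynomial.monomial α.degree (MvPolynomial.coeff α R * ∏ i, u i ^ α i)

theorem line_eval {n : ℕ} (R : MvPolynomial (Fin n) ℝ) (u : Fin n → ℝ) (t : ℝ) :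
    (line R u).eval t = MvPolynomial.eval (fun i => t * u i) R := by
  rw [line, Polynomial.eval_finsetSum, MvPolynomial.eval_eq']
  refine Finset.sum_congr rfl fun α _ => ?_
  rw [Polynomial.eval_monomial, mul_assoc]
  congr 1
  simp only [mul_pow]
  rw [Finset.prod_mul_distrib, Finset.prod_pow_eq_pow_sum, mul_comm]
  congr 2
  exact Finsupp.degree_eq_sum α

theorem line_natDegree {n K : ℕ} (R : MvPolynomial (Fin n) ℝ) (u : Fin n → ℝ)
    (h : R.totalDegree ≤ K) : (line R u).natDegree ≤ K := by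
  rw [line]
  refine Polynomial.natDegree_sum_le_of_forall_le _ _ fun α hα => ?_
  refine le_trans (Polynomial.natDegree_monomial_le _) ?_
  exact le_trans (MvPolynomial.le_totalDegree hα) h

theorem line_coeff {n j : ℕ} (R : MvPolynomial (Fin n) ℝ) (u : Fin n → ℝ)
    (h : ∀ α : Fin n →₀ ℕ, α.degree ≤ j → MvPolynomial.coeff α R = 0) (m : ℕ) (hm : m ≤ j) :
    (line R u).coeff m = 0 := by
  rw [line, Polynomial.finsetSum_coeff]
  refine Finset.sum_eq_zero fun α _ => ?_
  rw [Polynomial.coeff_monomial]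
  split_ifs with hα
  · rw [h α (by omega), zero_mul]
  · rfl

end TAY

theorem tay_thm : TAYStmt := by
  intro n K j
  obtain ⟨C, hC0, hC⟩ := TAY.coef_bound K
  refine ⟨(K + 1) * C, by positivity, ?_⟩
  intro R r M hdeg hvan hr0 hr1 hM y hy
  have hM0 : 0 ≤ M := le_trans (abs_nonneg _) (hM (fun _ => 0) (by simp))
  obtain ⟨u, hu1, hu⟩ : ∃ u : Fin n → ℝ, (∀ i, |u i| ≤ 1) ∧ ∀ i, r * u i = y i := by
    refine ⟨fun i => y i / r, fun i => ?_, fun i => ?_⟩
    · rw [abs_div, abs_of_nonneg hr0]
      exact div_le_one_of_le₀ (hy i) hr0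
    · rcases eq_or_lt_of_le hr0 with h | h
      · have h0 : |y i| ≤ 0 := by rw [h]; exact hy i
        have h1 : y i = 0 := abs_eq_zero.1 (le_antisymm h0 (abs_nonneg _))
        show r * (y i / r) = y i
        rw [h1, zero_div, mul_zero]
      · exact mul_div_cancel₀ _ (ne_of_gt h)
  have hq := TAY.line_natDegree R u hdeg
  have hev : ∀ t : ℝ, (TAY.line R u).eval t = MvPolynomial.eval (fun i => t * u i) R :=
    TAY.line_eval R u
  have hb : ∀ t : ℝ, 0 ≤ t → t ≤ 1 → |(TAY.line R u).eval t| ≤ M := by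
    intro t h0 h1
    rw [hev]
    refine hM _ fun i => ?_
    rw [abs_mul, abs_of_nonneg h0]
    exact mul_le_one₀ h1 (abs_nonneg _) (hu1 i)
  have hyy : MvPolynomial.eval y R = (TAY.line R u).eval r := by
    rw [hev]
    congr 2
    funext i
    exact (hu i).symm
  rw [hyy, Polynomial.eval_eq_sum_range' (n := K + 1) (by omega)]
  refine le_trans (Finset.abs_sum_le_sum_abs _ _) ?_
  have hterm : ∀ m ∈ Finset.range (K + 1),
      |(TAY.line R u).coeff m * r ^ m| ≤ C * M * r ^ (j + 1) := by
    intro m hm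
    have hmK : m ≤ K := by
      have := Finset.mem_range.1 hm
      omega
    by_cases hmj : m ≤ j
    · rw [TAY.line_coeff R u hvan m hmj, zero_mul, abs_zero]
      positivity
    · rw [abs_mul, abs_of_nonneg (pow_nonneg hr0 m)]
      refine mul_le_mul (hC _ M hq hb m hmK) ?_ (pow_nonneg hr0 m) (by positivity)
      exact pow_le_pow_of_le_one hr0 hr1 (by omega)
  refine le_trans (Finset.sum_le_sum hterm) (le_of_eq ?_)
  rw [Finset.sum_const, Finset.card_range, nsmul_eq_mul]
  push_cast
  ring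

end Pool.KAL
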