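import Pool.Agent.H56.KAL.Stmts

/-!
# Remez inequality for sets of positive measure
-/

set_option autoImplicit false

namespace Pool.KAL

open Finset Real MeasureTheory
open Pool.Agent.H49.Ent Pool.Agent.H32.Dense Pool.STK Pool.KAF

namespace RMM

/-- A set of measure larger than `n s` contains `n + 1` points at mutual distances at least
`s`. -/
theorem exists_points {s : ℝ} (hs : 0 < s) (a b : ℝ) : ∀ (n : ℕ) (E : Set ℝ), E ⊆ Set.Icc a b →
    ENNReal.ofReal (n * s) < volume E →
    ∃ x : ℕ → ℝ, (∀ i, i ≤ n → x i ∈ E) ∧ ∀ i j, i < j → j ≤ n → s ≤ x j - x i := by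
  intro n
  induction n with
  | zero =>
    intro E _ hE
    have hne : E.Nonempty := by
      by_contra h
      rw [Set.not_nonempty_iff_eq_empty] at h
      rw [h, measure_empty] at hE
      exact absurd hE (by simp)
    obtain ⟨x, hx⟩ := hne
    exact ⟨fun _ => x, fun _ _ => hx, fun i j h1 h2 => absurd (h1.trans_le h2) (by omega)⟩
  | succ n ih =>
    intro E hEab hE
    have hne : E.Nonempty := by
      by_contra h
      rw [Set.not_nonempty_iff_eq_empty] at h
      rw [h, measure_empty] at hE
      exact absurd hE (by simp)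
    have hbdd : BddBelow E := ⟨a, fun x hx => (hEab hx).1⟩
    have hfin : volume E ≠ ⊤ := by
      have h1 : volume E ≤ volume (Set.Icc a b) := measure_mono hEab
      rw [Real.volume_Icc] at h1
      exact ne_top_of_le_ne_top ENNReal.ofReal_ne_top h1
    have hlt : ((n + 1 : ℕ) : ℝ) * s < (volume E).toReal := by
      have h1 := (ENNReal.toReal_lt_toReal ENNReal.ofReal_ne_top hfin).2 hE
      rwa [ENNReal.toReal_ofReal (by positivity)] at h1
    set ε : ℝ := (volume E).toReal - ((n + 1 : ℕ) : ℝ) * s with hε
    have hεpos : 0 < ε := by linarith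
    obtain ⟨x₀, hx₀, hx₀'⟩ := exists_lt_of_csInf_lt hne (b := sInf E + ε / 2) (by linarith)
    have hinf : ∀ x ∈ E, sInf E ≤ x := fun x hx => csInf_le hbdd hx
    have hsub : E ⊆ Set.Icc (sInf E) (x₀ + s) ∪ (E ∩ Set.Ici (x₀ + s)) := by
      intro x hx
      rcases le_total x (x₀ + s) with h | h
      · exact Or.inl ⟨hinf x hx, h⟩
      · exact Or.inr ⟨hx, h⟩
    have hE' : ENNReal.ofReal (n * s) < volume (E ∩ Set.Ici (x₀ + s)) := by
      by_contra hcon
      rw [not_lt] at hcon
      have h1 : volume E ≤ ENNReal.ofReal (x₀ + s - sInf E) + ENNReal.ofReal (n * s) := by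
        calc volume E ≤ volume (Set.Icc (sInf E) (x₀ + s) ∪ (E ∩ Set.Ici (x₀ + s))) :=
              measure_mono hsub
          _ ≤ volume (Set.Icc (sInf E) (x₀ + s)) + volume (E ∩ Set.Ici (x₀ + s)) :=
              measure_union_le _ _
          _ ≤ _ := by
              rw [Real.volume_Icc]
              gcongr
      have h0 : sInf E ≤ x₀ := hinf x₀ hx₀
      rw [← ENNReal.ofReal_add (by linarith) (by positivity)] at h1
      have h2 := (ENNReal.toReal_le_toReal hfin ENNReal.ofReal_ne_top).2 h1
      rw [ENNReal.toReal_ofReal (add_nonneg (by linarith) (by positivity))] at h2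
      push_cast at hε hlt
      nlinarith
    obtain ⟨y, hy1, hy2⟩ := ih (E ∩ Set.Ici (x₀ + s)) (fun x hx => hEab hx.1) hE'
    refine ⟨fun i => Nat.casesOn i x₀ y, ?_, ?_⟩
    · intro i hi
      cases i with
      | zero => exact hx₀
      | succ i => exact (hy1 i (by omega)).1
    · intro i j hij hj
      cases j with
      | zero => omega
      | succ j =>
        cases i with
        | zero =>
          have h1 : x₀ + s ≤ y j := (hy1 j (by omega)).2
          change s ≤ y j - x₀
          linarith
        | succ i => exact hy2 i j (by omega) (by omega)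

/-- Lagrange interpolation with separated nodes. -/
theorem lagrange_bound (k : ℕ) (P : Polynomial ℝ) (hP : P.natDegree ≤ k) (x : ℕ → ℝ)
    (s B M t : ℝ) (hs : 0 < s) (hx : ∀ i j, i < j → j ≤ k → s ≤ x j - x i)
    (hB : ∀ i, i ≤ k → |t - x i| ≤ B) (hM : ∀ i, i ≤ k → |P.eval (x i)| ≤ M) :
    |P.eval t| ≤ ((k : ℝ) + 1) * ((B / s) ^ k * M) := by
  have hinj : Set.InjOn x (Finset.range (k + 1) : Finset ℕ) := by
    intro i hi j hj h
    rw [Finset.coe_range, Set.mem_Iio] at hi hj
    by_contra hne
    rcases lt_or_gt_of_ne hne with h1 | h1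
    · have := hx i j h1 (by omega)
      rw [h] at this
      linarith
    · have := hx j i h1 (by omega)
      rw [h] at this
      linarith
  have hdeg : P.degree < (Finset.range (k + 1)).card := by
    rw [Finset.card_range]
    refine (Polynomial.degree_le_natDegree).trans_lt ?_
    exact_mod_cast Nat.lt_succ_of_le hP
  have hsep : ∀ i j, i ≤ k → j ≤ k → i ≠ j → s ≤ |x i - x j| := by
    intro i j hi hj hne
    rcases lt_or_gt_of_ne hne with h1 | h1
    · have := hx i j h1 hj
      rw [abs_sub_comm]
      exact this.trans (le_abs_self _)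
    · have := hx j i h1 hi
      exact this.trans (le_abs_self _)
  have hB0 : 0 ≤ B := (abs_nonneg _).trans (hB 0 (by omega))
  have hM0 : 0 ≤ M := (abs_nonneg _).trans (hM 0 (by omega))
  have heq := Lagrange.eq_interpolate (f := P) hinj hdeg
  have hev : P.eval t = ∑ i ∈ Finset.range (k + 1), P.eval (x i) *
      (Lagrange.basis (Finset.range (k + 1)) x i).eval t := by
    conv_lhs => rw [heq]
    rw [Lagrange.interpolate_apply, Polynomial.eval_finsetSum]
    refine Finset.sum_congr rfl fun i _ => ?_
    rw [Polynomial.eval_mul, Polynomial.eval_C]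
  have hbas : ∀ i ∈ Finset.range (k + 1),
      |(Lagrange.basis (Finset.range (k + 1)) x i).eval t| ≤ (B / s) ^ k := by
    intro i hi
    have hi' : i ≤ k := by rw [Finset.mem_range] at hi; omega
    rw [Lagrange.basis, Polynomial.eval_prod, Finset.abs_prod]
    have hcard : ((Finset.range (k + 1)).erase i).card = k := by
      rw [Finset.card_erase_of_mem hi, Finset.card_range, Nat.add_sub_cancel]
    calc ∏ j ∈ (Finset.range (k + 1)).erase i,
          |(Lagrange.basisDivisor (x i) (x j)).eval t| ≤
        ∏ _j ∈ (Finset.range (k + 1)).erase i, (B / s) := by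
          refine Finset.prod_le_prod (fun _ _ => abs_nonneg _) fun j hj => ?_
          have hj' := Finset.mem_erase.1 hj
          have hjk : j ≤ k := by
            have := Finset.mem_range.1 hj'.2
            omega
          have h1 : (Lagrange.basisDivisor (x i) (x j)).eval t = (x i - x j)⁻¹ * (t - x j) := by
            rw [Lagrange.basisDivisor]
            simp
          rw [h1, abs_mul, abs_inv, mul_comm, ← div_eq_mul_inv]
          exact div_le_div₀ hB0 (hB j hjk) hs (hsep i j hi' hjk hj'.1.symm)
      _ = (B / s) ^ k := by rw [Finset.prod_const, hcard]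
  rw [hev]
  calc |∑ i ∈ Finset.range (k + 1), P.eval (x i) *
        (Lagrange.basis (Finset.range (k + 1)) x i).eval t| ≤
      ∑ i ∈ Finset.range (k + 1), |P.eval (x i) *
        (Lagrange.basis (Finset.range (k + 1)) x i).eval t| := Finset.abs_sum_le_sum_abs _ _
    _ ≤ ∑ _i ∈ Finset.range (k + 1), (B / s) ^ k * M := by
        refine Finset.sum_le_sum fun i hi => ?_
        have hi' : i ≤ k := by rw [Finset.mem_range] at hi; omega
        rw [abs_mul, mul_comm]
        exact mul_le_mul (hbas i hi) (hM i hi') (abs_nonneg _) (by positivity)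
    _ = ((k : ℝ) + 1) * ((B / s) ^ k * M) := by
        rw [Finset.sum_const, Finset.card_range, nsmul_eq_mul]
        push_cast
        ring

end RMM

open RMM

theorem rmm_thm : RMMStmt := by
  intro k
  refine ⟨((k : ℝ) + 1) * (2 * ((k : ℝ) + 1)) ^ k, by positivity, ?_⟩
  intro P a b ρ R M E hP hab hρ hρ1 hR _ hEab hE hM t ht
  have hba : 0 < b - a := by linarith
  have hk1 : (0 : ℝ) < (k : ℝ) + 1 := by positivity
  set s : ℝ := ρ * (b - a) / ((k : ℝ) + 1) with hs
  have hs0 : 0 < s := by positivity
  have hks : (k : ℝ) * s < ρ * (b - a) := by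
    have h1 : ((k : ℝ) + 1) * s = ρ * (b - a) := by
      rw [hs]
      field_simp
    nlinarith
  have hlt : ENNReal.ofReal (k * s) < volume E :=
    ((ENNReal.ofReal_lt_ofReal_iff (by positivity)).2 hks).trans_le hE
  obtain ⟨x, hx1, hx2⟩ := exists_points hs0 a b k E hEab hlt
  have hB : ∀ i, i ≤ k → |t - x i| ≤ 2 * R * (b - a) := by
    intro i hi
    have h1 := hEab (hx1 i hi)
    have h2 : |x i - a| ≤ R * (b - a) := by
      rw [abs_of_nonneg (by linarith [h1.1])]
      nlinarith [h1.2]
    calc |t - x i| = |(t - a) - (x i - a)| := by ring_nf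
      _ ≤ |t - a| + |x i - a| := abs_sub _ _
      _ ≤ 2 * R * (b - a) := by linarith
  have hmain := lagrange_bound k P hP x s (2 * R * (b - a)) M t hs0 hx2 hB
    (fun i hi => hM _ (hx1 i hi))
  have hq : 2 * R * (b - a) / s = 2 * ((k : ℝ) + 1) * (R / ρ) := by
    rw [hs]
    field_simp
  rw [hq, mul_pow] at hmain
  calc |P.eval t| ≤ _ := hmain
    _ = _ := by ring

end Pool.KAL
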